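import Mathlib

set_option autoImplicit false
set_option maxHeartbeats 4000000

open Finset

namespace Pool.Agent.Lib_helper42.TwoSq

/-- simultaneous Dirichlet approximation -/
theorem dirichlet (D : ℕ) (Q : ℕ) (hQ : 1 ≤ Q) (α : Fin D → ℝ) :
    ∃ A : ℕ, 1 ≤ A ∧ A ≤ Q ^ D ∧ ∀ d, ∃ Y : ℤ, |A * α d - Y| < 1 / Q := by
  have hQ0 : (0 : ℝ) < Q := by exact_mod_cast hQ
  -- boxes
  have hbox : ∀ z : ℝ, ⌊Q * Int.fract z⌋₊ < Q := by
    intro z
    have h1 : Q * Int.fract z < Q := by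
      have := Int.fract_lt_one z
      nlinarith
    exact (Nat.floor_lt (mul_nonneg hQ0.le (Int.fract_nonneg z))).2 h1
  let f : Fin (Q ^ D + 1) → (Fin D → Fin Q) := fun a d => ⟨⌊Q * Int.fract ((a : ℕ) * α d)⌋₊, hbox _⟩
  have hcard : Fintype.card (Fin D → Fin Q) < Fintype.card (Fin (Q ^ D + 1)) := by
    simp
  obtain ⟨a, b, hab, hf⟩ := Fintype.exists_ne_map_eq_of_card_lt f hcard
  wlog hlt : (a : ℕ) < b generalizing a b
  · exact this b a hab.symm hf.symm (by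
      have : (a : ℕ) ≠ b := fun h => hab (Fin.ext h)
      omega)
  refine ⟨b - a, by omega, by have := b.2; omega, fun d => ?_⟩
  have hfd : ⌊Q * Int.fract ((a : ℕ) * α d)⌋₊ = ⌊Q * Int.fract ((b : ℕ) * α d)⌋₊ := by
    have := congrFun hf d
    simpa [f] using this
  have h0a : 0 ≤ Q * Int.fract ((a : ℕ) * α d) := mul_nonneg hQ0.le (Int.fract_nonneg _)
  have h0b : 0 ≤ Q * Int.fract ((b : ℕ) * α d) := mul_nonneg hQ0.le (Int.fract_nonneg _)
  have h1 := Nat.floor_le h0a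
  have h2 := Nat.lt_floor_add_one (Q * Int.fract ((a : ℕ) * α d))
  have h3 := Nat.floor_le h0b
  have h4 := Nat.lt_floor_add_one (Q * Int.fract ((b : ℕ) * α d))
  rw [hfd] at h1 h2
  refine ⟨⌊(b : ℕ) * α d⌋ - ⌊(a : ℕ) * α d⌋, ?_⟩
  have h5 : (((b : ℕ) - (a : ℕ) : ℕ) : ℝ) * α d - ((⌊(b : ℕ) * α d⌋ - ⌊(a : ℕ) * α d⌋ : ℤ) : ℝ) =
      Int.fract ((b : ℕ) * α d) - Int.fract ((a : ℕ) * α d) := by
    rw [Nat.cast_sub hlt.le]
    push_cast
    unfold Int.fract
    ring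
  rw [h5, lt_div_iff₀ hQ0]
  have h6 : |(Int.fract ((b : ℕ) * α d) - Int.fract ((a : ℕ) * α d)) * Q| < 1 := by
    rw [abs_lt]; constructor <;> linarith
  rwa [abs_mul, abs_of_pos hQ0] at h6

/-- the core: `A = 2a` with `A √d` close to integers for `d ≤ D` -/
theorem core (D : ℕ) (hD : 5 ≤ D) (a : ℕ) (ha : 1 ≤ a) (δ : ℝ) (hδ0 : 0 ≤ δ) (hδ : δ ≤ 1 / 8)
    (happ : ∀ d : ℕ, 1 ≤ d → d ≤ D → ∃ Y : ℤ, |(2 * a : ℝ) * Real.sqrt d - Y| ≤ δ)
    (hbig : 5 * (D : ℝ) ^ 2 ≤ 2 * a)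
    (x y : ℤ) (hlow : ((2 * a ^ 2 : ℕ) : ℝ) ^ 2 + (2 * a - 1 : ℝ) ^ 2 < (x : ℝ) ^ 2 + (y : ℝ) ^ 2)
    (hx : ((2 * a ^ 2 : ℕ) : ℝ) - (D - 1) ≤ |(x : ℝ)|) :
    2 * (2 * a : ℝ) - 2 * (2 * a : ℝ) * Real.sqrt D * δ - 1 ≤
      (x : ℝ) ^ 2 + (y : ℝ) ^ 2 - (((2 * a ^ 2 : ℕ) : ℝ) ^ 2 + (2 * a - 1 : ℝ) ^ 2) := by
  have hDr : (5 : ℝ) ≤ D := by exact_mod_cast hD
  have har : (1 : ℝ) ≤ a := by exact_mod_cast ha
  set X0 : ℝ := ((2 * a ^ 2 : ℕ) : ℝ) with hX0
  have hX0' : X0 = 2 * (a : ℝ) ^ 2 := by rw [hX0]; push_cast; ring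
  set A : ℝ := 2 * a with hA
  have hA2 : X0 = A ^ 2 / 2 := by rw [hX0', hA]; ring
  have hA0 : 0 < A := by rw [hA]; positivity
  have hsD0 : 0 ≤ Real.sqrt D := Real.sqrt_nonneg _
  have hextra : 0 ≤ 2 * A * Real.sqrt D * δ := by positivity
  -- replace x by natural number
  obtain ⟨u, hu⟩ : ∃ u : ℕ, |(x : ℝ)| = u := ⟨x.natAbs, by
    rw [Nat.cast_natAbs]; push_cast; rfl⟩
  obtain ⟨v, hv⟩ : ∃ v : ℕ, |(y : ℝ)| = v := ⟨y.natAbs, by
    rw [Nat.cast_natAbs]; push_cast; rfl⟩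
  have hxu : (x : ℝ) ^ 2 = (u : ℝ) ^ 2 := by rw [← hu, sq_abs]
  have hyv : (y : ℝ) ^ 2 = (v : ℝ) ^ 2 := by rw [← hv, sq_abs]
  rw [hxu, hyv] at hlow ⊢
  rw [hu] at hx
  rcases le_or_gt ((2 * a ^ 2 : ℕ) + 1) u with h | h
  · have h1 : X0 + 1 ≤ u := by rw [hX0]; exact_mod_cast h
    have h2 : (X0 + 1) ^ 2 ≤ (u : ℝ) ^ 2 := pow_le_pow_left₀ (by rw [hX0']; positivity) h1 2
    have h3 : (0 : ℝ) ≤ (v : ℝ) ^ 2 := by positivity
    rw [hA2] at h2 ⊢
    nlinarith
  · -- u = X0 - j, 0 ≤ j ≤ D - 1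
    have hle : u ≤ 2 * a ^ 2 := by omega
    obtain ⟨j, hj⟩ := Nat.exists_eq_add_of_le hle
    have hjr : (u : ℝ) = X0 - j := by
      rw [hX0, hj]; push_cast; ring
    have hjD : j + 1 ≤ D := by
      have h1 : (j : ℝ) ≤ D - 1 := by linarith
      have h2 : ((j + 1 : ℕ) : ℝ) ≤ D := by push_cast; linarith
      exact_mod_cast h2
    have hj0 : (0 : ℝ) ≤ j := by positivity
    have hjDr : (j : ℝ) + 1 ≤ D := by exact_mod_cast hjD
    set d : ℝ := (j : ℝ) + 1 with hd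
    -- v^2 > d A^2 - 2A + 1 - j^2
    have hv2 : d * A ^ 2 - 2 * A + 1 - (j : ℝ) ^ 2 < (v : ℝ) ^ 2 := by
      rw [hjr, hA2] at hlow
      have : (A ^ 2 / 2 - (j : ℝ)) ^ 2 = (A ^ 2 / 2) ^ 2 - j * A ^ 2 + (j : ℝ) ^ 2 := by ring
      rw [hd]
      nlinarith
    -- reduce to a lower bound of v^2
    suffices hmain : d * A ^ 2 - 2 * A * Real.sqrt D * δ - (j : ℝ) ^ 2 ≤ (v : ℝ) ^ 2 by
      rw [hjr, hA2]
      have : (A ^ 2 / 2 - (j : ℝ)) ^ 2 = (A ^ 2 / 2) ^ 2 - j * A ^ 2 + (j : ℝ) ^ 2 := by ring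
      rw [hd] at hmain
      nlinarith
    rcases Nat.eq_zero_or_pos j with hj00 | hjpos
    · -- j = 0
      subst hj00
      simp only [Nat.cast_zero] at hd hv2 ⊢
      rw [hd] at hv2 ⊢
      have h1 : (A - 1) ^ 2 < (v : ℝ) ^ 2 := by nlinarith
      have h2 : A - 1 < v := lt_of_pow_lt_pow_left₀ 2 (by positivity) h1
      have h3 : A ≤ v := by
        have h4 : ((2 * a : ℕ) : ℝ) < ((v + 1 : ℕ) : ℝ) := by push_cast; rw [← hA]; linarith
        have h5 : 2 * a < v + 1 := by exact_mod_cast h4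
        have h6 : 2 * a ≤ v := by omega
        rw [hA]; exact_mod_cast h6
      have h4 : A ^ 2 ≤ (v : ℝ) ^ 2 := pow_le_pow_left₀ hA0.le h3 2
      nlinarith
    · have hj1 : (1 : ℝ) ≤ j := by exact_mod_cast hjpos
      obtain ⟨Y, hY⟩ := happ (j + 1) (by omega) hjD
      have hcast : (((j + 1 : ℕ)) : ℝ) = d := by rw [hd]; push_cast; rfl
      rw [hcast] at hY
      have hd0 : 0 ≤ d := by linarith
      have hsd : Real.sqrt d * Real.sqrt d = d := Real.mul_self_sqrt hd0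
      have hsd2 : 1.414 ≤ Real.sqrt d := by
        apply Real.le_sqrt_of_sq_le
        norm_num
        linarith
      have hsdD : Real.sqrt d ≤ Real.sqrt D := Real.sqrt_le_sqrt hjDr
      obtain ⟨hY1, hY2⟩ := abs_le.1 hY
      set s := A * Real.sqrt d with hs
      have hs2 : s ^ 2 = d * A ^ 2 := by
        rw [hs, mul_pow, sq (Real.sqrt d), hsd]; ring
      have hsA : 1.414 * A ≤ s := by
        rw [hs, mul_comm A]
        exact mul_le_mul_of_nonneg_right hsd2 hA0.le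
      have hA10 : 5 * (D : ℝ) ^ 2 ≤ A := hbig
      have hDsq : (25 : ℝ) ≤ (D : ℝ) ^ 2 := by
        have := pow_le_pow_left₀ (by norm_num) hDr 2
        norm_num at this
        exact this
      have hA25 : 125 ≤ A := by linarith
      have hjsq : (j : ℝ) ^ 2 ≤ (D : ℝ) ^ 2 := pow_le_pow_left₀ hj0 (by linarith) 2
      have h9 : (1 - δ) ^ 2 ≤ 1 := by
        have := pow_le_pow_left₀ (show 0 ≤ 1 - δ by linarith) (show 1 - δ ≤ 1 by linarith) 2
        linarith
      have h6 : 2.4745 * A ≤ 2 * s * (1 - δ) := by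
        have h7 : (7 / 8 : ℝ) ≤ 1 - δ := by linarith
        have h8 : 0 ≤ 2 * s := by linarith
        have h9 : 2 * s * (7 / 8) ≤ 2 * s * (1 - δ) := mul_le_mul_of_nonneg_left h7 h8
        linarith
      -- Y - 1 < v
      have hYv : (Y : ℝ) ≤ v := by
        have h1 : (Y - 1 : ℝ) ^ 2 < (v : ℝ) ^ 2 := by
          refine lt_of_le_of_lt ?_ hv2
          have h2 : (0 : ℝ) ≤ Y - 1 := by linarith
          have h3 : (Y - 1 : ℝ) ≤ s - (1 - δ) := by linarith
          have h4 : (Y - 1 : ℝ) ^ 2 ≤ (s - (1 - δ)) ^ 2 := pow_le_pow_left₀ h2 h3 2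
          have h5 : (s - (1 - δ)) ^ 2 = d * A ^ 2 - 2 * s * (1 - δ) + (1 - δ) ^ 2 := by
            rw [← hs2]; ring
          linarith
        have h2 : (Y - 1 : ℝ) < v := lt_of_pow_lt_pow_left₀ 2 (by positivity) h1
        have h3 : ((Y - 1 : ℤ) : ℝ) < ((v : ℤ) : ℝ) := by push_cast; exact h2
        have h4 : Y - 1 < (v : ℤ) := by exact_mod_cast h3
        have h5 : Y ≤ (v : ℤ) := by omega
        exact_mod_cast h5
      have hY0 : 0 ≤ s - δ := by linarith
      have h1 : (s - δ) ^ 2 ≤ (v : ℝ) ^ 2 := pow_le_pow_left₀ hY0 (by linarith) 2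
      have h2 : (s - δ) ^ 2 = d * A ^ 2 - 2 * s * δ + δ ^ 2 := by rw [← hs2]; ring
      have h3 : 2 * s * δ ≤ 2 * A * Real.sqrt D * δ := by
        apply mul_le_mul_of_nonneg_right _ hδ0
        rw [hs]
        have := mul_le_mul_of_nonneg_left hsdD hA0.le
        linarith
      have h10 := sq_nonneg δ
      have h11 := sq_nonneg (j : ℝ)
      linarith


theorem main (ε : ℝ) (hε : 0 < ε) : ∃ c : ℝ, 0 < c ∧ ∀ N : ℕ, ∃ n : ℕ, N ≤ n ∧ ∀ x y : ℤ,
    (n : ℝ) < (x : ℝ) ^ 2 + (y : ℝ) ^ 2 →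
    (x : ℝ) ^ 2 + (y : ℝ) ^ 2 < n + (2 * Real.sqrt 2 - ε) * (n : ℝ) ^ (1 / 4 : ℝ) →
    |(x : ℝ)| ≤ Real.sqrt n - c * Real.log n / Real.log (Real.log n) ∧
    |(y : ℝ)| ≤ Real.sqrt n - c * Real.log n / Real.log (Real.log n) := by
  refine ⟨1 / 40, by norm_num, fun N => ?_⟩
  set e := min ε 1 with he
  have he0 : 0 < e := lt_min hε one_pos
  have he1 : e ≤ 1 := min_le_right _ _
  have heε : e ≤ ε := min_le_left _ _
  obtain ⟨D, hDN, hD100, hDe⟩ : ∃ D : ℕ, N ≤ D ∧ 100 ≤ D ∧ 100 / e ≤ D := by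
    refine ⟨max N (max 100 ⌈100 / e⌉₊), le_max_left _ _, le_trans (le_max_left _ _) (le_max_right _ _),
      le_trans (Nat.le_ceil _) ?_⟩
    exact_mod_cast le_trans (le_max_right _ _) (le_max_right _ _)
  have hDr : (100 : ℝ) ≤ D := by exact_mod_cast hD100
  have hD0 : (0 : ℝ) < D := by linarith
  obtain ⟨a, ha1, haQ, happ⟩ := dirichlet D (D ^ 4) (Nat.one_le_pow _ _ (by omega))
    (fun d => Real.sqrt ((d : ℕ) + 1))
  have har : (1 : ℝ) ≤ a := by exact_mod_cast ha1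
  set δ : ℝ := 2 / (D : ℝ) ^ 4 with hδ
  have hD4 : (100 : ℝ) ^ 4 ≤ (D : ℝ) ^ 4 := pow_le_pow_left₀ (by norm_num) hDr 4
  have hD4pos : (0 : ℝ) < (D : ℝ) ^ 4 := by positivity
  have hδ0 : 0 ≤ δ := by positivity
  have hδ8 : δ ≤ 1 / 8 := by
    rw [hδ, div_le_iff₀ hD4pos]
    norm_num at hD4 ⊢
    linarith
  have happ' : ∀ d : ℕ, 1 ≤ d → d ≤ D → ∃ Y : ℤ, |(2 * a : ℝ) * Real.sqrt d - Y| ≤ δ := by
    intro d hd1 hdD
    obtain ⟨Y, hY⟩ := happ ⟨d - 1, by omega⟩
    refine ⟨2 * Y, ?_⟩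
    have h1 : (((d - 1 : ℕ) : ℝ) + 1) = d := by
      rw [Nat.cast_sub hd1]; push_cast; ring
    simp only [h1] at hY
    have h2 : (2 * a : ℝ) * Real.sqrt d - ((2 * Y : ℤ) : ℝ) = 2 * (a * Real.sqrt d - Y) := by
      push_cast; ring
    rw [h2, abs_mul, abs_two, hδ]
    have h3 : (2 : ℝ) / (D : ℝ) ^ 4 = 2 * (1 / ((D ^ 4 : ℕ) : ℝ)) := by push_cast; ring
    rw [h3]
    exact mul_le_mul_of_nonneg_left hY.le (by norm_num)
  have hs2 : Real.sqrt 2 * Real.sqrt 2 = 2 := Real.mul_self_sqrt (by norm_num)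
  have hs2u : Real.sqrt 2 ≤ 1.5 := by
    rw [show (1.5 : ℝ) = Real.sqrt (1.5 ^ 2) by rw [Real.sqrt_sq]; norm_num]
    exact Real.sqrt_le_sqrt (by norm_num)
  have hs2l : 1.4 ≤ Real.sqrt 2 := Real.le_sqrt_of_sq_le (by norm_num)
  -- lower bound of a
  have haD : (D : ℝ) ^ 4 ≤ 14 * a := by
    obtain ⟨Y, hY⟩ := happ' 2 (by norm_num) (by omega)
    push_cast at hY
    have hne : (8 * (a : ℤ) ^ 2 - Y ^ 2) ≠ 0 := by
      intro h
      have h1 : Y ^ 2 = 2 * (2 * (a : ℤ)) ^ 2 := by linarith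
      have h2 : Irrational (Real.sqrt 2) := irrational_sqrt_two
      apply h2
      refine ⟨|(Y : ℚ)| / (2 * a), ?_⟩
      have h3 : (Y : ℝ) ^ 2 = 2 * (2 * (a : ℝ)) ^ 2 := by exact_mod_cast h1
      have h4 : (|(Y : ℝ)| / (2 * a)) ^ 2 = 2 := by
        rw [div_pow, sq_abs, h3]
        have : (2 * (a : ℝ)) ^ 2 ≠ 0 := by positivity
        field_simp
      have h5 : Real.sqrt ((|(Y : ℝ)| / (2 * a)) ^ 2) = |(Y : ℝ)| / (2 * a) :=
        Real.sqrt_sq (by positivity)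
      rw [h4] at h5
      rw [h5]
      push_cast
      rfl
    have h1 : (1 : ℝ) ≤ |8 * (a : ℝ) ^ 2 - (Y : ℝ) ^ 2| := by
      have := Int.one_le_abs hne
      have h2 : ((1 : ℤ) : ℝ) ≤ ((|8 * (a : ℤ) ^ 2 - Y ^ 2| : ℤ) : ℝ) := by exact_mod_cast this
      push_cast at h2
      exact h2
    have h2 : 8 * (a : ℝ) ^ 2 - (Y : ℝ) ^ 2 = (2 * a * Real.sqrt 2 - Y) * (2 * a * Real.sqrt 2 + Y) := by
      have : (2 * a * Real.sqrt 2 - Y) * (2 * a * Real.sqrt 2 + Y) =
        4 * (a : ℝ) ^ 2 * (Real.sqrt 2 * Real.sqrt 2) - (Y : ℝ) ^ 2 := by ring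
      rw [this, hs2]; ring
    rw [h2, abs_mul] at h1
    have h3 : |2 * a * Real.sqrt 2 + Y| ≤ 7 * a := by
      obtain ⟨hY1, hY2⟩ := abs_le.1 hY
      have hup := mul_le_mul_of_nonneg_left hs2u (show (0 : ℝ) ≤ 2 * a by linarith)
      have hlo := mul_le_mul_of_nonneg_left hs2l (show (0 : ℝ) ≤ 2 * a by linarith)
      rw [abs_le]
      constructor <;> linarith
    have h4 : (1 : ℝ) ≤ δ * (7 * a) := by
      refine h1.trans (mul_le_mul hY h3 (abs_nonneg _) hδ0)
    rw [hδ] at h4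
    have h5 : 2 / (D : ℝ) ^ 4 * (7 * a) = (14 * a) / (D : ℝ) ^ 4 := by ring
    rw [h5, le_div_iff₀ hD4pos] at h4
    linarith
  set A : ℝ := 2 * a with hA
  have hAD : (D : ℝ) ^ 4 ≤ 7 * A := by rw [hA]; linarith
  have hDD : (D : ℝ) ^ 4 = (D : ℝ) ^ 2 * (D : ℝ) ^ 2 := by ring
  have hD2 : (10000 : ℝ) ≤ (D : ℝ) ^ 2 := by
    have := pow_le_pow_left₀ (by norm_num) hDr 2
    norm_num at this
    exact this
  have hD2pos : (0 : ℝ) ≤ (D : ℝ) ^ 2 := by positivity
  have hD42 : 10000 * (D : ℝ) ^ 2 ≤ (D : ℝ) ^ 4 := by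
    rw [hDD]
    exact mul_le_mul_of_nonneg_right hD2 hD2pos
  have hbig : 5 * (D : ℝ) ^ 2 ≤ A := by linarith
  have hA0 : 0 < A := by rw [hA]; positivity
  have hDle2 : 100 * (D : ℝ) ≤ (D : ℝ) ^ 2 := by
    rw [sq]
    exact mul_le_mul_of_nonneg_right hDr hD0.le
  have hDA : 500 * (D : ℝ) ≤ A := by linarith
  have hA5 : (50000 : ℝ) ≤ A := by linarith
  have hA2sq : 50000 * A ≤ A ^ 2 := by
    rw [sq]
    exact mul_le_mul_of_nonneg_right hA5 hA0.le
  -- the integer n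
  set X0 : ℝ := ((2 * a ^ 2 : ℕ) : ℝ) with hX0
  have hX0' : X0 = A ^ 2 / 2 := by rw [hX0, hA]; push_cast; ring
  refine ⟨(2 * a ^ 2) ^ 2 + (2 * a - 1) ^ 2, ?_, ?_⟩
  · -- N ≤ n
    have h1 : D ≤ 2 * a := by
      have : (D : ℝ) ≤ 2 * a := by linarith
      exact_mod_cast this
    have h2 : 2 * a ≤ 2 * a ^ 2 := by
      rw [sq]
      have := Nat.mul_le_mul_left a ha1
      omega
    have h3 : 2 * a ^ 2 ≤ (2 * a ^ 2) ^ 2 := by
      rw [sq (2 * a ^ 2)]
      exact Nat.le_mul_of_pos_right _ (by positivity)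
    omega
  · set n : ℕ := (2 * a ^ 2) ^ 2 + (2 * a - 1) ^ 2 with hn
    have hnr : (n : ℝ) = X0 ^ 2 + (A - 1) ^ 2 := by
      rw [hn, hX0, hA]
      push_cast [Nat.cast_sub (show 1 ≤ 2 * a by omega)]
      ring
    have hn0 : (0 : ℝ) ≤ n := by positivity
    have hX00 : 0 ≤ X0 := by rw [hX0]; positivity
    have hXn : X0 ≤ Real.sqrt n := by
      apply Real.le_sqrt_of_sq_le
      rw [hnr]
      have := sq_nonneg (A - 1)
      linarith
    have hn4 : (n : ℝ) ^ (1 / 4 : ℝ) ≤ A / Real.sqrt 2 + 1 := by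
      have hs2pos : 0 < Real.sqrt 2 := by linarith
      have h0 : 0 ≤ A / Real.sqrt 2 + 1 := by positivity
      have h1 : (n : ℝ) ≤ (A / Real.sqrt 2 + 1) ^ 4 := by
        have h2 : (A / Real.sqrt 2) ^ 2 = A ^ 2 / 2 := by
          rw [div_pow, sq (Real.sqrt 2), hs2]
        have h3 : X0 + 1 ≤ (A / Real.sqrt 2 + 1) ^ 2 := by
          have h30 : 0 ≤ A / Real.sqrt 2 := by positivity
          have h31 : (A / Real.sqrt 2 + 1) ^ 2 = (A / Real.sqrt 2) ^ 2 + 2 * (A / Real.sqrt 2) + 1 := by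
            ring
          rw [h31, h2, hX0']
          linarith
        have h4 : (n : ℝ) ≤ (X0 + 1) ^ 2 := by
          have h41 : (X0 + 1) ^ 2 = X0 ^ 2 + 2 * X0 + 1 := by ring
          have h42 : (A - 1) ^ 2 = A ^ 2 - 2 * A + 1 := by ring
          rw [hnr, h41, h42, hX0']
          linarith
        calc (n : ℝ) ≤ (X0 + 1) ^ 2 := h4
          _ ≤ ((A / Real.sqrt 2 + 1) ^ 2) ^ 2 := pow_le_pow_left₀ (by linarith) h3 2
          _ = (A / Real.sqrt 2 + 1) ^ 4 := by ring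
      calc (n : ℝ) ^ (1 / 4 : ℝ) ≤ ((A / Real.sqrt 2 + 1) ^ 4) ^ (1 / 4 : ℝ) :=
            Real.rpow_le_rpow hn0 h1 (by norm_num)
        _ = A / Real.sqrt 2 + 1 := by
            rw [← Real.rpow_natCast, ← Real.rpow_mul h0]
            norm_num
    have hn40 : 0 ≤ (n : ℝ) ^ (1 / 4 : ℝ) := by positivity
    -- window bound
    have hwin : (2 * Real.sqrt 2 - ε) * (n : ℝ) ^ (1 / 4 : ℝ) ≤
        2 * A - 2 * A * Real.sqrt D * δ - 1 := by
      have h1 : (2 * Real.sqrt 2 - ε) * (n : ℝ) ^ (1 / 4 : ℝ) ≤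
          (2 * Real.sqrt 2 - e) * (A / Real.sqrt 2 + 1) := by
        calc (2 * Real.sqrt 2 - ε) * (n : ℝ) ^ (1 / 4 : ℝ)
            ≤ (2 * Real.sqrt 2 - e) * (n : ℝ) ^ (1 / 4 : ℝ) :=
              mul_le_mul_of_nonneg_right (by linarith) hn40
          _ ≤ (2 * Real.sqrt 2 - e) * (A / Real.sqrt 2 + 1) :=
              mul_le_mul_of_nonneg_left hn4 (by linarith)
      have hs2pos : 0 < Real.sqrt 2 := by linarith
      have h2 : (2 * Real.sqrt 2 - e) * (A / Real.sqrt 2 + 1) =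
          2 * A + 2 * Real.sqrt 2 - e * (A / Real.sqrt 2) - e := by
        have : 2 * Real.sqrt 2 * (A / Real.sqrt 2) = 2 * A := by field_simp
        calc (2 * Real.sqrt 2 - e) * (A / Real.sqrt 2 + 1)
            = 2 * Real.sqrt 2 * (A / Real.sqrt 2) + 2 * Real.sqrt 2 - e * (A / Real.sqrt 2) - e := by
              ring
          _ = _ := by rw [this]
      have h3 : 0.66 * A ≤ A / Real.sqrt 2 := by
        rw [le_div_iff₀ hs2pos]
        have := mul_le_mul_of_nonneg_left hs2u (show 0 ≤ 0.66 * A by linarith)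
        linarith
      have h4 : e * (0.66 * A) ≤ e * (A / Real.sqrt 2) := mul_le_mul_of_nonneg_left h3 he0.le
      -- 2 A sqrt D δ ≤ e A / 4
      have hsD : Real.sqrt D ≤ D := by
        rw [Real.sqrt_le_left hD0.le]
        linarith
      have hDe' : 100 ≤ e * D := by
        rw [div_le_iff₀ he0] at hDe
        linarith
      have h5 : Real.sqrt D * δ ≤ e / 8 := by
        calc Real.sqrt D * δ ≤ D * δ := mul_le_mul_of_nonneg_right hsD hδ0
          _ = 2 * D / (D : ℝ) ^ 4 := by rw [hδ]; ring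
          _ ≤ e / 8 := by
              rw [div_le_div_iff₀ hD4pos (by norm_num)]
              have h60 : e * (D : ℝ) ^ 4 = (e * D * (D * D)) * D := by ring
              have hDD1 : (1 : ℝ) ≤ D * D := by rw [← sq]; linarith
              have h6 : (100 : ℝ) * 1 ≤ (e * D) * (D * D) :=
                mul_le_mul hDe' hDD1 (by norm_num) (by linarith)
              have h61 := mul_le_mul_of_nonneg_right h6 hD0.le
              rw [h60]
              linarith
      have h6 : 2 * A * Real.sqrt D * δ ≤ e * A / 4 := by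
        calc 2 * A * Real.sqrt D * δ = 2 * A * (Real.sqrt D * δ) := by ring
          _ ≤ 2 * A * (e / 8) := mul_le_mul_of_nonneg_left h5 (by linarith)
          _ = e * A / 4 := by ring
      have h7 : 500 * 100 ≤ e * A := by
        have h70 := mul_le_mul_of_nonneg_left hDA he0.le
        linarith
      linarith
    -- the logarithm
    have hlog : 1 / 40 * Real.log n / Real.log (Real.log n) ≤ D - 1 := by
      have hlogD : 1 ≤ Real.log D := by
        rw [Real.le_log_iff_exp_le hD0]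
        have := Real.exp_one_lt_d9
        linarith
      have hAup : A ≤ 2 * (D : ℝ) ^ (4 * D) := by
        have h1 : (a : ℝ) ≤ (D : ℝ) ^ (4 * D) := by
          have : ((a : ℕ) : ℝ) ≤ (((D ^ 4) ^ D : ℕ) : ℝ) := by exact_mod_cast haQ
          push_cast at this
          rwa [← pow_mul] at this
        rw [hA]; linarith
      have hnA : (n : ℝ) ≤ A ^ 4 := by
        have h1 : (A - 1) ^ 2 = A ^ 2 - 2 * A + 1 := by ring
        have h2 : (A ^ 2 / 2) ^ 2 = A ^ 4 / 4 := by ring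
        have h3 : (2 : ℝ) ≤ A ^ 2 := by linarith
        have h4 : 2 * A ^ 2 ≤ A ^ 4 := by
          have : A ^ 4 = A ^ 2 * A ^ 2 := by ring
          rw [this]
          exact mul_le_mul_of_nonneg_right h3 (by positivity)
        rw [hnr, hX0', h1, h2]
        linarith
      have hnpos : (0 : ℝ) < n := by
        rw [hnr, hX0']; positivity
      have hnA' : Real.log n ≤ 20 * D * Real.log D := by
        calc Real.log n ≤ Real.log (A ^ 4) := Real.log_le_log hnpos hnA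
          _ = 4 * Real.log A := by rw [Real.log_pow]; norm_num
          _ ≤ 4 * Real.log (2 * (D : ℝ) ^ (4 * D)) := by
              have := Real.log_le_log hA0 hAup
              linarith
          _ = 4 * (Real.log 2 + 4 * D * Real.log D) := by
              rw [Real.log_mul (by norm_num) (by positivity), Real.log_pow]
              push_cast; ring
          _ ≤ 20 * D * Real.log D := by
              have h1 : Real.log 2 ≤ 1 := by
                have := Real.log_two_lt_d9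
                linarith
              have h2 : 1 * 1 ≤ (D : ℝ) * Real.log D :=
                mul_le_mul (by linarith) hlogD (by norm_num) hD0.le
              linarith
      have hn16 : Real.exp 1 ≤ Real.log n := by
        have h2 : (10000 : ℝ) ≤ n := by
          have h21 : A ≤ (A - 1) ^ 2 := by
            have : (A - 1) ^ 2 = A ^ 2 - 2 * A + 1 := by ring
            rw [this]; linarith
          have h22 := sq_nonneg X0
          rw [hnr]
          linarith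
        rw [Real.le_log_iff_exp_le hnpos]
        have h3 : Real.exp (Real.exp 1) ≤ Real.exp 3 := by
          apply Real.exp_le_exp.2
          have := Real.exp_one_lt_d9
          linarith
        have h4 : Real.exp 3 = (Real.exp 1) ^ 3 := by
          rw [← Real.exp_nat_mul]; norm_num
        have h5 : (Real.exp 1) ^ 3 ≤ 3 ^ 3 := by
          have := Real.exp_one_lt_d9
          exact pow_le_pow_left₀ (Real.exp_pos 1).le (by linarith) 3
        rw [h4] at h3
        have h6 : ((3 : ℝ)) ^ 3 = 27 := by norm_num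
        rw [h6] at h5
        linarith
      set t := Real.log n with ht
      set T := 20 * D * Real.log D with hT
      have he1' : (2 : ℝ) ≤ Real.exp 1 := by
        have := Real.add_one_le_exp (1 : ℝ)
        linarith
      have ht0 : 0 < t := by linarith
      have hT0 : 0 < T := by linarith
      have hanti := Real.log_div_self_antitoneOn (a := t) (b := T) hn16 (le_trans hn16 hnA') hnA'
      simp only at hanti
      have hlogt : 1 ≤ Real.log t := by
        rw [Real.le_log_iff_exp_le ht0]; exact hn16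
      have hlogT : Real.log D ≤ Real.log T := by
        apply Real.log_le_log hD0
        have h2 : (D : ℝ) * 1 ≤ D * Real.log D := mul_le_mul_of_nonneg_left hlogD hD0.le
        rw [hT]
        linarith
      have h1 : Real.log D / T ≤ Real.log t / t := by
        refine le_trans ?_ hanti
        exact div_le_div_of_nonneg_right hlogT hT0.le
      have h2 : t * Real.log D ≤ Real.log t * T := by
        rw [div_le_div_iff₀ hT0 ht0] at h1
        linarith
      have h3 : t ≤ 20 * D * Real.log t := by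
        have h4 : t * Real.log D ≤ (20 * D * Real.log t) * Real.log D := by
          rw [hT] at h2
          linarith
        exact le_of_mul_le_mul_right h4 (by linarith)
      rw [div_le_iff₀ (by linarith)]
      have h5 : (1 : ℝ) ≤ D / 2 := by linarith
      have h6 : (D : ℝ) / 2 * Real.log t ≤ (D - 1) * Real.log t :=
        mul_le_mul_of_nonneg_right (by linarith) (by linarith)
      linarith
    intro x y hxy1 hxy2
    have key : ∀ x y : ℤ, (n : ℝ) < (x : ℝ) ^ 2 + (y : ℝ) ^ 2 →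
        (x : ℝ) ^ 2 + (y : ℝ) ^ 2 < n + (2 * Real.sqrt 2 - ε) * (n : ℝ) ^ (1 / 4 : ℝ) →
        |(x : ℝ)| ≤ Real.sqrt n - 1 / 40 * Real.log n / Real.log (Real.log n) := by
      intro x y h1 h2
      by_contra hcon
      rw [not_le] at hcon
      have h3 : X0 - (D - 1) ≤ |(x : ℝ)| := by linarith
      rw [hnr] at h1
      have h4 := core D (by omega) a ha1 δ hδ0 hδ8 happ' hbig x y h1 h3
      rw [← hA, ← hnr] at h4
      linarith
    exact ⟨key x y hxy1 hxy2, key y x (by linarith) (by linarith)⟩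

end Pool.Agent.Lib_helper42.TwoSq
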